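import Pool.Agent.H.MP_69d63a_nt.B

namespace Pool.Agent.Results.MP_69d63a_nt.Yes

noncomputable def gap (n : ℕ) : ℤ := (Nat.nth Nat.Prime n : ℤ) - (Nat.nth Nat.Prime (n - 1) : ℤ)

noncomputable def score (n : ℕ) : ℤ := ∑ k ∈ Finset.Icc 2 n, Int.sign (gap k - gap (k - 1))

theorem result : score 261150 = 1 ∧ ∃ n, 250000 < n ∧ 0 < score n :=
  Pool.Agent.H.MP_69d63a_nt.main

end Pool.Agent.Results.MP_69d63a_nt.Yes
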